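import Pool.Agent.W516.MTG.Stm

/-! Project MTG (owner helper516), part DIR: with independent weights the graded relations give all
linear relations. -/

set_option autoImplicit false

namespace Pool.Agent.W509.MTG

open Matrix Pool.Agent.W516.MTZ Pool.Agent.W516.MTH Pool.Agent.W516.MTG

theorem T_DIR : Pool.Agent.W516.MTG.StDir := by
  intro m X _ _ _ _ M p hp hS hI g hg c hc
  classical
  -- the parts of the relation
  let N : Finset ℕ := Finset.univ.image M.wt
  let d : ℕ → m → m → ℚ := fun n i j => if M.wt j = n then c i j else 0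
  have key : ∀ B : Matrix m m ℂ, ∑ n ∈ N, ∑ i, ∑ j, (d n i j : ℂ) * B i j =
      ∑ i, ∑ j, (c i j : ℂ) * B i j := by
    intro B
    rw [Finset.sum_comm]
    refine Finset.sum_congr rfl fun i _ => ?_
    rw [Finset.sum_comm]
    refine Finset.sum_congr rfl fun j _ => ?_
    rw [Finset.sum_eq_single (M.wt j)]
    · simp [d]
    · intro n _ hn
      simp [d, hn.symm]
    · intro h
      exact absurd (Finset.mem_image_of_mem _ (Finset.mem_univ j)) h
  have hmem : ∀ n, ∑ i, ∑ j, (d n i j : ℂ) * (p : Matrix m m ℂ) i j ∈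
      periods M (p : Matrix m m ℂ) n := by
    intro n
    refine Submodule.sum_mem _ fun i _ => Submodule.sum_mem _ fun j _ => ?_
    by_cases h : M.wt j = n
    · have h1 : (p : Matrix m m ℂ) i j ∈ periods M (p : Matrix m m ℂ) n :=
        Submodule.subset_span ⟨i, j, h, rfl⟩
      have h2 := Submodule.smul_mem _ (d n i j) h1
      rwa [Rat.smul_def] at h2
    · simp [d, h]
  have h0 := (iSupIndep_iff_finsetSum_eq_zero_imp_eq_zero _).1 hI N
    (fun n => ∑ i, ∑ j, (d n i j : ℂ) * (p : Matrix m m ℂ) i j) (fun n _ => hmem n)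
    (by rw [key]; exact hc)
  rw [← key]
  refine Finset.sum_eq_zero fun n hn => ?_
  refine hS g hg n (d n) ?_ (h0 n hn)
  intro i j hij
  by_contra h
  exact hij (by simp [d, h])

end Pool.Agent.W509.MTG
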